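import Mathlib

set_option autoImplicit false

namespace Pool.Agent.Results.MP_fb3fae_co.AllTriangles

open Module

/-- Euclidean three-space. -/
abbrev E3 : Type := EuclideanSpace ℝ (Fin 3)

/-- A convex polyhedron: the convex hull of finitely many points of `ℝ³`, with nonempty interior. -/
def IsConvexPolyhedron (P : Set E3) : Prop :=
  (∃ V : Finset E3, P = convexHull ℝ (V : Set E3)) ∧ (interior P).Nonempty

/-- `F` is a two-dimensional face of `P`: a nonempty set of maximisers over `P` of a linear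
functional whose affine span has dimension two. -/
def IsTwoFace (P F : Set E3) : Prop :=
  IsExposed ℝ P F ∧ F.Nonempty ∧ finrank ℝ (vectorSpan ℝ F) = 2

/-- the point with the given coordinates -/
noncomputable def pt (x y z : ℝ) : E3 := !₂[x, y, z]

lemma dist_pt (x y z x' y' z' : ℝ) :
    dist (pt x y z) (pt x' y' z') = Real.sqrt ((x - x')^2 + (y - y')^2 + (z - z')^2) := by
  rw [EuclideanSpace.dist_eq, Fin.sum_univ_three]
  simp [pt, Real.dist_eq, sq_abs]

/-- An isometry of `ℝ³` carrying one nondegenerate triangle to a congruent one. -/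
lemma exists_isometry (a b c a' b' c' : E3) (hind : LinearIndependent ℝ ![b - a, c - a])
    (h1 : dist a b = dist a' b') (h2 : dist a c = dist a' c') (h3 : dist b c = dist b' c') :
    ∃ g : E3 ≃ᵢ E3, g a = a' ∧ g b = b' ∧ g c = c' := by
  have n1 : ‖b - a‖ = ‖b' - a'‖ := by
    rw [← dist_eq_norm, ← dist_eq_norm, dist_comm b, dist_comm b', h1]
  have n2 : ‖c - a‖ = ‖c' - a'‖ := by
    rw [← dist_eq_norm, ← dist_eq_norm, dist_comm c, dist_comm c', h2]
  have n3 : ‖(b - a) - (c - a)‖ = ‖(b' - a') - (c' - a')‖ := by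
    rw [sub_sub_sub_cancel_right, sub_sub_sub_cancel_right, ← dist_eq_norm, ← dist_eq_norm, h3]
  have inn : inner ℝ (b - a) (c - a) = inner ℝ (b' - a') (c' - a') := by
    have e1 := norm_sub_sq_real (b - a) (c - a)
    have e2 := norm_sub_sq_real (b' - a') (c' - a')
    rw [n3, n1, n2] at e1
    linarith
  set f : (Fin 2 → ℝ) →ₗ[ℝ] E3 := Fintype.linearCombination ℝ ![b - a, c - a] with hf
  set f' : (Fin 2 → ℝ) →ₗ[ℝ] E3 := Fintype.linearCombination ℝ ![b' - a', c' - a'] with hf'
  have hfi : Function.Injective f := by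
    exact hind.fintypeLinearCombination_injective
  have hnorm : ∀ w : Fin 2 → ℝ, ‖f' w‖ = ‖f w‖ := by
    intro w
    have : ‖f' w‖ ^ 2 = ‖f w‖ ^ 2 := by
      simp only [hf, hf', Fintype.linearCombination_apply, Fin.sum_univ_two, Matrix.cons_val_zero,
        Matrix.cons_val_one]
      rw [norm_add_sq_real, norm_add_sq_real]
      simp only [norm_smul, inner_smul_left, inner_smul_right, n1, n2, inn]
    exact (sq_eq_sq₀ (norm_nonneg _) (norm_nonneg _)).1 this
  let e := LinearEquiv.ofInjective f hfi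
  let L : (LinearMap.range f) →ₗᵢ[ℝ] E3 :=
    { toLinearMap := f'.comp e.symm.toLinearMap
      norm_map' := by
        intro x
        obtain ⟨w, rfl⟩ := e.surjective x
        simp only [LinearMap.coe_comp, LinearEquiv.coe_coe, Function.comp_apply,
          LinearEquiv.symm_apply_apply]
        rw [hnorm]
        rfl }
  have hL : ∀ w : Fin 2 → ℝ, L.extend (f w) = f' w := by
    intro w
    have := LinearIsometry.extend_apply L (e w)
    have h4 : ((e w : LinearMap.range f) : E3) = f w := rfl
    rw [h4] at this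
    rw [this]
    change f' (e.symm (e w)) = f' w
    rw [LinearEquiv.symm_apply_apply]
  let G : E3 ≃ₗᵢ[ℝ] E3 := L.extend.toLinearIsometryEquiv rfl
  have hG : ∀ x, G x = L.extend x := fun x => rfl
  have hb : G (b - a) = b' - a' := by
    have := hL ![1, 0]
    simp [hf, hf', Fintype.linearCombination_apply, Fin.sum_univ_two] at this
    rw [hG]; simpa using this
  have hc : G (c - a) = c' - a' := by
    have := hL ![0, 1]
    simp [hf, hf', Fintype.linearCombination_apply, Fin.sum_univ_two] at this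
    rw [hG]; simpa using this
  refine ⟨((IsometryEquiv.subRight a).trans G.toIsometryEquiv).trans
    (IsometryEquiv.addRight a'), ?_, ?_, ?_⟩
  · simp
  · simp only [IsometryEquiv.trans_apply, IsometryEquiv.subRight_apply, IsometryEquiv.addRight_apply]
    change G (b - a) + a' = b'
    rw [hb]; abel
  · simp only [IsometryEquiv.trans_apply, IsometryEquiv.subRight_apply, IsometryEquiv.addRight_apply]
    change G (c - a) + a' = c'
    rw [hc]; abel

lemma image_convexHull_isometry (g : E3 ≃ᵢ E3) (s : Set E3) :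
    g '' convexHull ℝ s = convexHull ℝ (g '' s) := by
  have h := (g.toRealAffineIsometryEquiv.toAffineEquiv.toAffineMap).image_convexHull (s := s)
  exact h

/-- A point of the hull of a finite set where a linear functional takes its maximum is in the
hull of the points of the set where the maximum is taken. -/
lemma mem_hull_of_max (V : Finset E3) (l : E3 →ₗ[ℝ] ℝ) (M : ℝ) (hM : ∀ v ∈ V, l v ≤ M) (x : E3)
    (hx : x ∈ convexHull ℝ (V : Set E3)) (hl : l x = M) :
    x ∈ convexHull ℝ {v | v ∈ V ∧ l v = M} := by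
  classical
  rw [Finset.mem_convexHull'] at hx
  obtain ⟨w, hw0, hw1, hwx⟩ := hx
  have hsum : ∑ v ∈ V, w v * (M - l v) = 0 := by
    have : l x = ∑ v ∈ V, w v * l v := by
      rw [← hwx, map_sum]; simp
    simp only [mul_sub, Finset.sum_sub_distrib, ← Finset.sum_mul, hw1]
    rw [← this, hl]; ring
  have hz : ∀ v ∈ V, w v * (M - l v) = 0 :=
    (Finset.sum_eq_zero_iff_of_nonneg
      (fun v hv => mul_nonneg (hw0 v hv) (sub_nonneg.2 (hM v hv)))).1 hsum
  have hz' : ∀ v ∈ V, l v ≠ M → w v = 0 := by
    intro v hv hne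
    rcases mul_eq_zero.1 (hz v hv) with h | h
    · exact h
    · exact absurd (by linarith) hne
  have hs1 : ∑ v ∈ V.filter (fun v => l v = M), w v = 1 := by
    rw [← hw1]
    apply Finset.sum_subset (Finset.filter_subset _ _)
    intro v hv hn
    apply hz' v hv
    intro h; exact hn (Finset.mem_filter.2 ⟨hv, h⟩)
  have hs2 : ∑ v ∈ V.filter (fun v => l v = M), w v • v = x := by
    rw [← hwx]
    apply Finset.sum_subset (Finset.filter_subset _ _)
    intro v hv hn
    rw [hz' v hv (fun h => hn (Finset.mem_filter.2 ⟨hv, h⟩)), zero_smul]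
  have := (convex_convexHull ℝ {v | v ∈ V ∧ l v = M}).sum_mem
    (t := V.filter (fun v => l v = M)) (w := w) (z := fun v => v)
    (fun v hv => hw0 v (Finset.mem_filter.1 hv).1) hs1
    (fun v hv => subset_convexHull ℝ _ (Finset.mem_filter.1 hv))
  rwa [hs2] at this

lemma finrank_le_one_of_subset_pair (F : Set E3) (b c : E3) (h : F ⊆ convexHull ℝ {b, c}) :
    finrank ℝ (vectorSpan ℝ F) ≤ 1 := by
  have h1 : vectorSpan ℝ F ≤ vectorSpan ℝ ({b, c} : Set E3) := by
    have := vectorSpan_mono ℝ h
    rwa [← direction_affineSpan ℝ (convexHull ℝ {b, c}), affineSpan_convexHull,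
      direction_affineSpan] at this
  have h2 : finrank ℝ (vectorSpan ℝ ({b, c} : Set E3)) ≤ 1 :=
    collinear_iff_finrank_le_one.1 (collinear_pair ℝ b c)
  exact (Submodule.finrank_mono h1).trans h2

/-- the six vertices -/
noncomputable def verts (h z r : ℝ) : Finset E3 := by
  classical
  exact {pt 0 0 h, pt 0 0 (-h), pt r 0 z, pt (-r) 0 z, pt 0 r (-z), pt 0 (-r) (-z)}

lemma mem_verts (h z r : ℝ) (v : E3) : v ∈ verts h z r ↔
    v = pt 0 0 h ∨ v = pt 0 0 (-h) ∨ v = pt r 0 z ∨ v = pt (-r) 0 z ∨ v = pt 0 r (-z) ∨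
      v = pt 0 (-r) (-z) := by
  classical
  simp [verts]

lemma pt_eq (x y z : ℝ) : pt x y z = x • pt 1 0 0 + y • pt 0 1 0 + z • pt 0 0 1 := by
  ext i
  fin_cases i <;> simp [pt]

lemma span_verts (h z r : ℝ) (hh : 0 < h) (hr : 0 < r) :
    vectorSpan ℝ (verts h z r : Set E3) = ⊤ := by
  have mem : ∀ v w, v ∈ verts h z r → w ∈ verts h z r →
      v - w ∈ vectorSpan ℝ (verts h z r : Set E3) := by
    intro v w hv hw
    exact vsub_mem_vectorSpan ℝ (Finset.mem_coe.2 hv) (Finset.mem_coe.2 hw)
  have e3 : pt 0 0 1 ∈ vectorSpan ℝ (verts h z r : Set E3) := by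
    have h1 := mem (pt 0 0 h) (pt 0 0 (-h)) (by simp [mem_verts]) (by simp [mem_verts])
    have h2 := Submodule.smul_mem _ (1 / (2 * h)) h1
    convert h2 using 1
    ext i
    fin_cases i <;> simp [pt]
    field_simp
    ring
  have e1 : pt 1 0 0 ∈ vectorSpan ℝ (verts h z r : Set E3) := by
    have h1 := mem (pt r 0 z) (pt (-r) 0 z) (by simp [mem_verts]) (by simp [mem_verts])
    have h2 := Submodule.smul_mem _ (1 / (2 * r)) h1
    convert h2 using 1
    ext i
    fin_cases i <;> simp [pt]
    field_simp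
    ring
  have e2 : pt 0 1 0 ∈ vectorSpan ℝ (verts h z r : Set E3) := by
    have h1 := mem (pt 0 r (-z)) (pt 0 (-r) (-z)) (by simp [mem_verts]) (by simp [mem_verts])
    have h2 := Submodule.smul_mem _ (1 / (2 * r)) h1
    convert h2 using 1
    ext i
    fin_cases i <;> simp [pt]
    field_simp
    ring
  rw [eq_top_iff]
  intro x _
  have : x = pt (x 0) (x 1) (x 2) := by
    ext i
    fin_cases i <;> simp [pt]
  rw [this, pt_eq]
  exact Submodule.add_mem _ (Submodule.add_mem _ (Submodule.smul_mem _ _ e1)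
    (Submodule.smul_mem _ _ e2)) (Submodule.smul_mem _ _ e3)

/-- Every two-dimensional face of the hull of the six vertices is one of the eight triangles
joining a pole, a vertex of the first equatorial pair and a vertex of the second one. -/
lemma face_eq (h z r : ℝ) (hh : 0 < h) (hz : 0 ≤ z) (hzh : z < h) (hr : 0 < r) (F : Set E3)
    (hF : IsTwoFace (convexHull ℝ (verts h z r : Set E3)) F) :
    ∃ A B C : E3, (A = pt 0 0 h ∨ A = pt 0 0 (-h)) ∧ (B = pt r 0 z ∨ B = pt (-r) 0 z) ∧
      (C = pt 0 r (-z) ∨ C = pt 0 (-r) (-z)) ∧ F = convexHull ℝ {A, B, C} := by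
  obtain ⟨hexp, hne, hrank⟩ := hF
  have hconv : Convex ℝ F := hexp.convex (convex_convexHull ℝ _)
  obtain ⟨l, hl⟩ := hexp hne
  obtain ⟨x0, hx0⟩ := hne
  set M := l x0 with hMdef
  have hx0' : x0 ∈ convexHull ℝ (verts h z r : Set E3) ∧
      ∀ y ∈ convexHull ℝ (verts h z r : Set E3), l y ≤ l x0 := by
    rw [hl] at hx0; exact hx0
  have hmax : ∀ v ∈ verts h z r, l v ≤ M := fun v hv =>
    hx0'.2 v (subset_convexHull ℝ _ (Finset.mem_coe.2 hv))
  have hFM : ∀ x, x ∈ F ↔ x ∈ convexHull ℝ (verts h z r : Set E3) ∧ l x = M := by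
    intro x
    constructor
    · intro hx
      rw [hl] at hx
      exact ⟨hx.1, le_antisymm (hx0'.2 x hx.1) (hx.2 x0 hx0'.1)⟩
    · rintro ⟨hx, hxM⟩
      rw [hl]
      exact ⟨hx, fun y hy => by rw [hxM]; exact hx0'.2 y hy⟩
  set α := l (pt 1 0 0) with hα
  set β := l (pt 0 1 0) with hβ
  set γ := l (pt 0 0 1) with hγ
  have hlpt : ∀ x y w : ℝ, l (pt x y w) = x * α + y * β + w * γ := by
    intro x y w
    rw [pt_eq, map_add, map_add, map_smul, map_smul, map_smul]
    simp [hα, hβ, hγ]
  have m1 : h * γ ≤ M := by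
    have := hmax (pt 0 0 h) (by simp [mem_verts]); rw [hlpt] at this; linarith
  have m2 : -h * γ ≤ M := by
    have := hmax (pt 0 0 (-h)) (by simp [mem_verts]); rw [hlpt] at this; linarith
  have m3 : r * α + z * γ ≤ M := by
    have := hmax (pt r 0 z) (by simp [mem_verts]); rw [hlpt] at this; linarith
  have m4 : -r * α + z * γ ≤ M := by
    have := hmax (pt (-r) 0 z) (by simp [mem_verts]); rw [hlpt] at this; linarith
  have m5 : r * β - z * γ ≤ M := by
    have := hmax (pt 0 r (-z)) (by simp [mem_verts]); rw [hlpt] at this; linarith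
  have m6 : -r * β - z * γ ≤ M := by
    have := hmax (pt 0 (-r) (-z)) (by simp [mem_verts]); rw [hlpt] at this; linarith
  -- the functional is not zero
  have hnz : ¬ (α = 0 ∧ β = 0 ∧ γ = 0) := by
    rintro ⟨h1, h2, h3⟩
    have hl0 : ∀ x : E3, l x = 0 := by
      intro x
      have : x = pt (x 0) (x 1) (x 2) := by
        ext i
        fin_cases i <;> simp [pt]
      rw [this, hlpt, h1, h2, h3]; ring
    have hFeq : F = convexHull ℝ (verts h z r : Set E3) := by
      ext x
      rw [hFM]
      constructor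
      · exact fun hx => hx.1
      · exact fun hx => ⟨hx, by rw [hMdef, hl0, hl0]⟩
    rw [hFeq, ← direction_affineSpan, affineSpan_convexHull, direction_affineSpan,
      span_verts h z r hh hr, finrank_top] at hrank
    simp at hrank
  -- opposite vertices are not both in the face
  have c1 : ¬ (h * γ = M ∧ -h * γ = M) := by
    rintro ⟨e1, e2⟩
    have hγ0 : γ = 0 := by
      have : h * γ = 0 := by linarith
      rcases mul_eq_zero.1 this with h' | h'
      · linarith
      · exact h'
    have hM0 : M = 0 := by rw [← e1, hγ0]; ring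
    rw [hγ0, hM0] at m3 m4 m5 m6
    refine hnz ⟨?_, ?_, hγ0⟩
    · have : r * α = 0 := by linarith
      rcases mul_eq_zero.1 this with h' | h'
      · linarith
      · exact h'
    · have : r * β = 0 := by linarith
      rcases mul_eq_zero.1 this with h' | h'
      · linarith
      · exact h'
  have key : ∀ s : ℝ, s * z * γ = M → (s = 1 ∨ s = -1) → γ = 0 := by
    intro s hs hs1
    rcases hs1 with rfl | rfl
    · have a1 : (h - z) * γ ≤ 0 := by nlinarith
      have a2 : 0 ≤ (h + z) * γ := by nlinarith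
      have b1 : γ ≤ 0 := by
        by_contra hc
        push Not at hc
        nlinarith [mul_pos (sub_pos.2 hzh) hc]
      have b2 : 0 ≤ γ := by
        by_contra hc
        push Not at hc
        nlinarith [mul_pos (show 0 < h + z by linarith) (neg_pos.2 hc)]
      linarith
    · have a1 : (h + z) * γ ≤ 0 := by nlinarith
      have a2 : 0 ≤ (h - z) * γ := by nlinarith
      have b1 : γ ≤ 0 := by
        by_contra hc
        push Not at hc
        nlinarith [mul_pos (show 0 < h + z by linarith) hc]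
      have b2 : 0 ≤ γ := by
        by_contra hc
        push Not at hc
        nlinarith [mul_pos (sub_pos.2 hzh) (neg_pos.2 hc)]
      linarith
  have c2 : ¬ (r * α + z * γ = M ∧ -r * α + z * γ = M) := by
    rintro ⟨e1, e2⟩
    have hα0 : α = 0 := by
      have : r * α = 0 := by linarith
      rcases mul_eq_zero.1 this with h' | h'
      · linarith
      · exact h'
    have hγ0 : γ = 0 := key 1 (by rw [hα0] at e1; linarith) (Or.inl rfl)
    have hM0 : M = 0 := by rw [← e1, hγ0, hα0]; ring
    rw [hγ0, hM0] at m5 m6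
    refine hnz ⟨hα0, ?_, hγ0⟩
    have : r * β = 0 := by linarith
    rcases mul_eq_zero.1 this with h' | h'
    · linarith
    · exact h'
  have c3 : ¬ (r * β - z * γ = M ∧ -r * β - z * γ = M) := by
    rintro ⟨e1, e2⟩
    have hβ0 : β = 0 := by
      have : r * β = 0 := by linarith
      rcases mul_eq_zero.1 this with h' | h'
      · linarith
      · exact h'
    have hγ0 : γ = 0 := key (-1) (by rw [hβ0] at e1; linarith) (Or.inr rfl)
    have hM0 : M = 0 := by rw [← e1, hγ0, hβ0]; ring
    rw [hγ0, hM0] at m3 m4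
    refine hnz ⟨?_, hβ0, hγ0⟩
    have : r * α = 0 := by linarith
    rcases mul_eq_zero.1 this with h' | h'
    · linarith
    · exact h'
  -- choose the candidates
  obtain ⟨A, hA, hA'⟩ : ∃ A, (A = pt 0 0 h ∨ A = pt 0 0 (-h)) ∧
      (∀ v, (v = pt 0 0 h ∨ v = pt 0 0 (-h)) → l v = M → v = A) := by
    by_cases hc : h * γ = M
    · refine ⟨pt 0 0 h, Or.inl rfl, ?_⟩
      rintro v (rfl | rfl) hv
      · rfl
      · exfalso; apply c1; refine ⟨hc, ?_⟩; rw [hlpt] at hv; linarith
    · refine ⟨pt 0 0 (-h), Or.inr rfl, ?_⟩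
      rintro v (rfl | rfl) hv
      · exfalso; apply hc; rw [hlpt] at hv; linarith
      · rfl
  obtain ⟨B, hB, hB'⟩ : ∃ B, (B = pt r 0 z ∨ B = pt (-r) 0 z) ∧
      (∀ v, (v = pt r 0 z ∨ v = pt (-r) 0 z) → l v = M → v = B) := by
    by_cases hc : r * α + z * γ = M
    · refine ⟨pt r 0 z, Or.inl rfl, ?_⟩
      rintro v (rfl | rfl) hv
      · rfl
      · exfalso; apply c2; refine ⟨hc, ?_⟩; rw [hlpt] at hv; linarith
    · refine ⟨pt (-r) 0 z, Or.inr rfl, ?_⟩
      rintro v (rfl | rfl) hv
      · exfalso; apply hc; rw [hlpt] at hv; linarith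
      · rfl
  obtain ⟨C, hC, hC'⟩ : ∃ C, (C = pt 0 r (-z) ∨ C = pt 0 (-r) (-z)) ∧
      (∀ v, (v = pt 0 r (-z) ∨ v = pt 0 (-r) (-z)) → l v = M → v = C) := by
    by_cases hc : r * β - z * γ = M
    · refine ⟨pt 0 r (-z), Or.inl rfl, ?_⟩
      rintro v (rfl | rfl) hv
      · rfl
      · exfalso; apply c3; refine ⟨hc, ?_⟩; rw [hlpt] at hv; linarith
    · refine ⟨pt 0 (-r) (-z), Or.inr rfl, ?_⟩
      rintro v (rfl | rfl) hv
      · exfalso; apply hc; rw [hlpt] at hv; linarith
      · rfl
  have hsub : F ⊆ convexHull ℝ {v | v ∈ verts h z r ∧ l v = M} := by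
    intro x hx
    obtain ⟨hx1, hx2⟩ := (hFM x).1 hx
    exact mem_hull_of_max (verts h z r) (l : E3 →ₗ[ℝ] ℝ) M hmax x hx1 hx2
  have hcover : ∀ v, v ∈ verts h z r ∧ l v = M → (v = A ∨ v = B ∨ v = C) ∧ l v = M := by
    rintro v ⟨hv, hvM⟩
    refine ⟨?_, hvM⟩
    rw [mem_verts] at hv
    rcases hv with hv | hv | hv | hv | hv | hv
    · exact Or.inl (hA' v (Or.inl hv) hvM)
    · exact Or.inl (hA' v (Or.inr hv) hvM)
    · exact Or.inr (Or.inl (hB' v (Or.inl hv) hvM))
    · exact Or.inr (Or.inl (hB' v (Or.inr hv) hvM))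
    · exact Or.inr (Or.inr (hC' v (Or.inl hv) hvM))
    · exact Or.inr (Or.inr (hC' v (Or.inr hv) hvM))
  have hAM : l A = M := by
    by_contra hc
    have : F ⊆ convexHull ℝ {B, C} := hsub.trans (convexHull_mono (by
      intro v hv
      obtain ⟨h1, h2⟩ := hcover v hv
      rcases h1 with rfl | rfl | rfl
      · exact absurd h2 hc
      · simp
      · simp))
    have := finrank_le_one_of_subset_pair F B C this
    omega
  have hBM : l B = M := by
    by_contra hc
    have : F ⊆ convexHull ℝ {A, C} := hsub.trans (convexHull_mono (by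
      intro v hv
      obtain ⟨h1, h2⟩ := hcover v hv
      rcases h1 with rfl | rfl | rfl
      · simp
      · exact absurd h2 hc
      · simp))
    have := finrank_le_one_of_subset_pair F A C this
    omega
  have hCM : l C = M := by
    by_contra hc
    have : F ⊆ convexHull ℝ {A, B} := hsub.trans (convexHull_mono (by
      intro v hv
      obtain ⟨h1, h2⟩ := hcover v hv
      rcases h1 with rfl | rfl | rfl
      · simp
      · simp
      · exact absurd h2 hc))
    have := finrank_le_one_of_subset_pair F A B this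
    omega
  refine ⟨A, B, C, hA, hB, hC, ?_⟩
  apply Set.Subset.antisymm
  · refine hsub.trans (convexHull_mono ?_)
    intro v hv
    obtain ⟨h1, h2⟩ := hcover v hv
    simpa using h1
  · apply convexHull_min _ hconv
    have inV : ∀ v, v ∈ verts h z r → v ∈ convexHull ℝ (verts h z r : Set E3) :=
      fun v hv => subset_convexHull ℝ _ (Finset.mem_coe.2 hv)
    intro v hv
    simp only [Set.mem_insert_iff, Set.mem_singleton_iff] at hv
    rcases hv with rfl | rfl | rfl
    · refine (hFM _).2 ⟨inV _ ?_, hAM⟩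
      rw [mem_verts]
      rcases hA with h1 | h1
      · exact Or.inl h1
      · exact Or.inr (Or.inl h1)
    · refine (hFM _).2 ⟨inV _ ?_, hBM⟩
      rw [mem_verts]
      rcases hB with h1 | h1
      · exact Or.inr (Or.inr (Or.inl h1))
      · exact Or.inr (Or.inr (Or.inr (Or.inl h1)))
    · refine (hFM _).2 ⟨inV _ ?_, hCM⟩
      rw [mem_verts]
      rcases hC with h1 | h1
      · exact Or.inr (Or.inr (Or.inr (Or.inr (Or.inl h1))))
      · exact Or.inr (Or.inr (Or.inr (Or.inr (Or.inr h1))))

/-- The construction for a triangle `a b c` labelled so that `|ab| ≤ |ac|` and the angle at `a`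
is acute. -/
lemma main (a b c : E3) (hind : LinearIndependent ℝ ![b - a, c - a])
    (hpq : dist a b ≤ dist a c) (he : dist b c ^ 2 < dist a b ^ 2 + dist a c ^ 2) :
    ∃ P : Set E3, IsConvexPolyhedron P ∧
      ∀ F : Set E3, IsTwoFace P F → ∃ g : E3 ≃ᵢ E3, F = g '' convexHull ℝ {a, b, c} := by
  set p := dist a b ^ 2 with hp
  set q := dist a c ^ 2 with hq
  set e := dist b c ^ 2 with hedef
  have hpq' : p ≤ q := pow_le_pow_left₀ dist_nonneg hpq 2
  -- strict Cauchy-Schwarz
  have hgram : (p + q - e) ^ 2 < 4 * p * q := by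
    have n1 : ‖b - a‖ ^ 2 = p := by rw [hp, dist_comm, dist_eq_norm]
    have n2 : ‖c - a‖ ^ 2 = q := by rw [hq, dist_comm, dist_eq_norm]
    have n3 : ‖(b - a) - (c - a)‖ ^ 2 = e := by
      rw [hedef, sub_sub_sub_cancel_right, dist_eq_norm]
    have inn : 2 * inner ℝ (b - a) (c - a) = p + q - e := by
      have := norm_sub_sq_real (b - a) (c - a)
      rw [n1, n2, n3] at this
      linarith
    have hne : ‖b - a‖ ^ 2 • (c - a) - (inner ℝ (b - a) (c - a)) • (b - a) ≠ 0 := by
      intro h0
      have h1 := (LinearIndependent.pair_iff.1 hind)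
        (-(inner ℝ (b - a) (c - a))) (‖b - a‖ ^ 2) (by rw [← h0]; module)
      have hb : b - a ≠ 0 := by
        have := hind.ne_zero 0
        simpa using this
      have : ‖b - a‖ ^ 2 ≠ 0 := pow_ne_zero 2 (norm_ne_zero_iff.2 hb)
      exact this h1.2
    have hpos : 0 < ‖‖b - a‖ ^ 2 • (c - a) - (inner ℝ (b - a) (c - a)) • (b - a)‖ ^ 2 :=
      pow_pos (norm_pos_iff.2 hne) 2
    rw [norm_sub_sq_real] at hpos
    simp only [norm_smul, inner_smul_left, inner_smul_right, Real.norm_eq_abs, mul_pow, sq_abs,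
      RCLike.conj_to_real, real_inner_comm (b - a) (c - a)] at hpos
    have hp0 : 0 < p := by
      have hb : b - a ≠ 0 := by
        have := hind.ne_zero 0
        simpa using this
      rw [← n1]; exact pow_pos (norm_pos_iff.2 hb) 2
    rw [n1, n2] at hpos
    have h3 : 0 < p * (p * q - (inner ℝ (b - a) (c - a)) ^ 2) := by
      have : inner ℝ (c - a) (b - a) = inner ℝ (b - a) (c - a) := real_inner_comm _ _
      nlinarith [hpos, this]
    have h4 : 0 < p * q - (inner ℝ (b - a) (c - a)) ^ 2 := by
      by_contra hc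
      push Not at hc
      nlinarith [mul_nonneg hp0.le (neg_nonneg.2 hc)]
    nlinarith [h4, inn]
  have hD : 0 < (p + q - e) / 2 := by linarith
  set D := (p + q - e) / 2 with hDdef
  set E := (q - p) / 4 with hEdef
  have hE : 0 ≤ E := by rw [hEdef]; linarith
  set R := Real.sqrt (D ^ 2 + 4 * E ^ 2) with hR
  have hR2 : R ^ 2 = D ^ 2 + 4 * E ^ 2 := Real.sq_sqrt (by positivity)
  have hRD : D ≤ R := by
    rw [hR]; apply Real.le_sqrt_of_sq_le; nlinarith
  have hR0 : 0 < R := lt_of_lt_of_le hD hRD
  have hRlt : 2 * R < p + q := by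
    have hpq0 : 0 < p + q := by
      have : 0 ≤ e := by positivity
      linarith
    by_contra hc
    push Not at hc
    have : (p + q) ^ 2 ≤ (2 * R) ^ 2 := by
      apply pow_le_pow_left₀ hpq0.le hc
    nlinarith [this, hR2, hgram]
  set h := Real.sqrt ((R + D) / 2) with hh
  set z := Real.sqrt ((R - D) / 2) with hz
  set r := Real.sqrt ((e - 2 * (R - D)) / 2) with hr
  have h2 : h ^ 2 = (R + D) / 2 := Real.sq_sqrt (by linarith)
  have z2 : z ^ 2 = (R - D) / 2 := Real.sq_sqrt (by linarith)
  have r2 : r ^ 2 = (e - 2 * (R - D)) / 2 := Real.sq_sqrt (by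
    have : 0 < e - 2 * (R - D) := by rw [hDdef]; linarith
    linarith)
  have hz0 : 0 ≤ z := Real.sqrt_nonneg _
  have hh0 : 0 < h := Real.sqrt_pos.2 (by linarith)
  have hr0 : 0 < r := Real.sqrt_pos.2 (by
    have : 0 < e - 2 * (R - D) := by rw [hDdef]; linarith
    linarith)
  have hzh : z < h := by
    apply Real.sqrt_lt_sqrt (by linarith) (by linarith)
  have hzhE : h * z = E := by
    have : (h * z) ^ 2 = E ^ 2 := by
      rw [mul_pow, h2, z2]
      nlinarith [hR2]
    exact (pow_left_inj₀ (by positivity) hE (by norm_num)).1 this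
  -- distances
  have dp : r ^ 2 + (h - z) ^ 2 = p := by
    have : (h - z) ^ 2 = h ^ 2 + z ^ 2 - 2 * (h * z) := by ring
    rw [this, h2, z2, r2, hzhE, hEdef, hDdef]; ring
  have dq : r ^ 2 + (h + z) ^ 2 = q := by
    have : (h + z) ^ 2 = h ^ 2 + z ^ 2 + 2 * (h * z) := by ring
    rw [this, h2, z2, r2, hzhE, hEdef, hDdef]; ring
  have de : r ^ 2 + r ^ 2 + (2 * z) ^ 2 = e := by
    rw [mul_pow, z2, r2]; ring
  have sp : dist a b = Real.sqrt p := by rw [hp, Real.sqrt_sq dist_nonneg]
  have sq' : dist a c = Real.sqrt q := by rw [hq, Real.sqrt_sq dist_nonneg]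
  have se : dist b c = Real.sqrt e := by rw [hedef, Real.sqrt_sq dist_nonneg]
  refine ⟨convexHull ℝ (verts h z r : Set E3), ⟨⟨verts h z r, rfl⟩, ?_⟩, ?_⟩
  · rw [interior_convexHull_nonempty_iff_affineSpan_eq_top]
    have hne : (verts h z r : Set E3).Nonempty := ⟨pt 0 0 h, by simp [mem_verts]⟩
    rw [AffineSubspace.affineSpan_eq_top_iff_vectorSpan_eq_top_of_nonempty ℝ E3 E3 hne]
    exact span_verts h z r hh0 hr0
  · intro F hF
    obtain ⟨A, B, C, hA, hB, hC, rfl⟩ := face_eq h z r hh0 hz0 hzh hr0 F hF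
    have hBC : dist B C = Real.sqrt e := by
      rcases hB with rfl | rfl <;> rcases hC with rfl | rfl <;> rw [dist_pt] <;> congr 1 <;>
        linarith [de]
    rcases hA with rfl | rfl
    · have hAB : dist (pt 0 0 h) B = Real.sqrt p := by
        rcases hB with rfl | rfl <;> rw [dist_pt] <;> congr 1 <;> linarith [dp]
      have hAC : dist (pt 0 0 h) C = Real.sqrt q := by
        rcases hC with rfl | rfl <;> rw [dist_pt] <;> congr 1 <;> linarith [dq]
      obtain ⟨g, ga, gb, gc⟩ := exists_isometry a b c (pt 0 0 h) B C hind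
        (sp.trans hAB.symm) (sq'.trans hAC.symm) (se.trans hBC.symm)
      refine ⟨g, ?_⟩
      rw [image_convexHull_isometry, Set.image_insert_eq, Set.image_insert_eq,
        Set.image_singleton, ga, gb, gc]
    · have hAB : dist (pt 0 0 (-h)) B = Real.sqrt q := by
        rcases hB with rfl | rfl <;> rw [dist_pt] <;> congr 1 <;> linarith [dq]
      have hAC : dist (pt 0 0 (-h)) C = Real.sqrt p := by
        rcases hC with rfl | rfl <;> rw [dist_pt] <;> congr 1 <;> linarith [dp]
      obtain ⟨g, ga, gb, gc⟩ := exists_isometry a b c (pt 0 0 (-h)) C B hind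
        (sp.trans hAC.symm) (sq'.trans hAB.symm) (se.trans (hBC.symm.trans (dist_comm _ _)))
      refine ⟨g, ?_⟩
      rw [image_convexHull_isometry, Set.image_insert_eq, Set.image_insert_eq,
        Set.image_singleton, ga, gb, gc]
      congr 1
      rw [Set.pair_comm C B]

/-- **All triangles.** For every nondegenerate triangle `t` (three affinely independent points of
`ℝ³`) there is a convex polyhedron all of whose two-dimensional faces are images of the triangle
under isometries of `ℝ³`. -/
theorem result : ∀ t : Fin 3 → E3, AffineIndependent ℝ t →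
    ∃ P : Set E3, IsConvexPolyhedron P ∧
      ∀ F : Set E3, IsTwoFace P F →
        ∃ g : E3 ≃ᵢ E3, F = g '' convexHull ℝ (Set.range t) := by
  intro t ht
  have hrange : ∀ i j k : Fin 3, i ≠ j → i ≠ k → j ≠ k → Set.range t = {t i, t j, t k} := by
    intro i j k hij hik hjk
    ext x
    simp only [Set.mem_range, Set.mem_insert_iff, Set.mem_singleton_iff]
    constructor
    · rintro ⟨m, rfl⟩
      have : m = i ∨ m = j ∨ m = k := by
        revert i j k m; decide
      rcases this with rfl | rfl | rfl <;> simp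
    · rintro (rfl | rfl | rfl)
      exacts [⟨i, rfl⟩, ⟨j, rfl⟩, ⟨k, rfl⟩]
  have hind : ∀ i j k : Fin 3, i ≠ j → i ≠ k → j ≠ k →
      LinearIndependent ℝ ![t j - t i, t k - t i] := by
    intro i j k hij hik hjk
    have h1 := (affineIndependent_iff_linearIndependent_vsub ℝ t i).1 ht
    let f : Fin 2 → {x : Fin 3 // x ≠ i} := ![⟨j, hij.symm⟩, ⟨k, hik.symm⟩]
    have hf : Function.Injective f := by
      intro u v huv
      fin_cases u <;> fin_cases v <;> simp_all [f]
    have h2 := h1.comp f hf
    have h3 : ![t j - t i, t k - t i] = (fun m : {x : Fin 3 // x ≠ i} => t m -ᵥ t i) ∘ f := by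
      funext u
      fin_cases u <;> rfl
    rw [h3]
    exact h2
  -- the construction for one labelling
  have key : ∀ i j k : Fin 3, i ≠ j → i ≠ k → j ≠ k →
      dist (t j) (t k) ^ 2 < dist (t i) (t j) ^ 2 + dist (t i) (t k) ^ 2 →
      ∃ P : Set E3, IsConvexPolyhedron P ∧
        ∀ F : Set E3, IsTwoFace P F →
          ∃ g : E3 ≃ᵢ E3, F = g '' convexHull ℝ (Set.range t) := by
    intro i j k hij hik hjk hac
    rcases le_total (dist (t i) (t j)) (dist (t i) (t k)) with h | h
    · rw [hrange i j k hij hik hjk]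
      exact main (t i) (t j) (t k) (hind i j k hij hik hjk) h hac
    · rw [hrange i k j hik hij hjk.symm]
      exact main (t i) (t k) (t j) (hind i k j hik hij hjk.symm) h
        (by rw [dist_comm (t k) (t j)]; linarith)
  by_cases h : dist (t 1) (t 2) ^ 2 < dist (t 0) (t 1) ^ 2 + dist (t 0) (t 2) ^ 2
  · exact key 0 1 2 (by decide) (by decide) (by decide) h
  · push Not at h
    refine key 1 0 2 (by decide) (by decide) (by decide) ?_
    have h01 : 0 < dist (t 0) (t 1) := by
      rw [dist_pos]
      intro h0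
      have := ht.injective h0
      exact absurd this (by decide)
    rw [dist_comm (t 1) (t 0)]
    nlinarith [pow_pos h01 2]

end Pool.Agent.Results.MP_fb3fae_co.AllTriangles
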